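import Pool.Agent.W223.AK.Defs
import Pool.Agent.H691R3.Main2

set_option autoImplicit false
set_option linter.unusedSectionVars false

/-!
The gap principle with root extraction, in cell form (`StmtMB`).
-/

namespace Pool.Agent.W108.AK

open NumberField IsDedekindDomain Finset Pool.Agent.H691R3 Pool.Agent.W223.AK

section Alg

variable {K : Type} [Field K]

/-- the three points -/
def al (l : Fin 3) : K × K := ![(0, 1), (1, 0), (-1, 1)] l

lemma al_ne (l : Fin 3) : (al l : K × K) ≠ 0 := by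
  fin_cases l <;> simp [al, Prod.ext_iff]

lemma nrm_al (f : AbsoluteValue K ℝ) (l : Fin 3) : nrm f (al l) = 1 := by
  fin_cases l <;> simp [nrm, al]

lemma f_wg_al (f : AbsoluteValue K ℝ) (l j : Fin 3) (h : l ≠ j) : f (wg (al l) (al j)) = 1 := by
  fin_cases l <;> fin_cases j <;> simp_all [wg, al]

lemma wg_al_ne (l j : Fin 3) (h : l ≠ j) : wg (al l : K × K) (al j) ≠ 0 := by
  fin_cases l <;> fin_cases j <;> simp_all [wg, al]

lemma lamA_al (f : AbsoluteValue K ℝ) (l j : Fin 3) (h : l ≠ j) :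
    lamA f (al l) (al j) = 0 := by
  have h1 : lamA f (al l) (al j) =
    Real.log (nrm f (al l) * nrm f (al j) / f (wg (al l) (al j))) := rfl
  rw [h1, nrm_al, nrm_al, f_wg_al f l j h]
  simp

end Alg

variable {K : Type} [Field K] [NumberField K]

lemma f_wg_aff (f : AbsoluteValue K ℝ) (x : K) (l : Fin 3) :
    f (wg (aff x) (al l)) = f (L l x) := by
  fin_cases l <;> simp [wg, aff, al, L]

lemma nrm_aff (f : AbsoluteValue K ℝ) (x : K) : nrm f (aff x) = max (f x) 1 := by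
  simp [nrm, aff]

lemma lamA_aff (f : AbsoluteValue K ℝ) (x : K) (l : Fin 3) :
    lamA f (aff x) (al l) = Real.log (max (f x) 1 / f (L l x)) := by
  have h1 : lamA f (aff x) (al l) =
    Real.log (nrm f (aff x) * nrm f (al l) / f (wg (aff x) (al l))) := rfl
  rw [h1, nrm_al, nrm_aff, f_wg_aff, mul_one]

lemma lam_lm (v : Pl K) (x : K) (l : Fin 3) : lam v (aff x) (al l) = lm v l x := by
  rw [lam_eq, lamA_aff]; rfl

lemma off_of_Pt {x : K} (h : Pt x) : Off (al : Fin 3 → K × K) x := by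
  intro l
  fin_cases l
  · simpa [wg, aff, al] using h.1
  · simp [wg, aff, al]
  · simpa [wg, aff, al] using h.2

lemma ordin {S : Finset (Pr K)} {k : ℕ} (hk : 1 ≤ k) (hS : SGood S k) (v : Pr K) (hv : v ∉ S) :
    Ordin k (al : Fin 3 → K × K) v :=
  ⟨fun l => nrm_al _ l, fun l j h => lamA_al _ l j h, hS k hk le_rfl v hv⟩

lemma lamA_P {S : Finset (Pr K)} {x : K} {P : Fin 3 → Idl K} (hP : IsP S x P)
    (l : Fin 3) {v : Pr K} (hv : v ∉ S) :
    lamA (fv v) (aff x) (al l) = (P l v : ℝ) * Real.log (Nv v) := by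
  have h0 : 0 < max (fv v x) 1 := lt_max_of_lt_right one_pos
  rw [lamA_aff, hP.val l v hv, div_mul_cancel_left₀ h0.ne', ← zpow_neg, neg_neg, Real.log_zpow]
  norm_cast

lemma one_form {S : Finset (Pr K)} {x : K} {P : Fin 3 → Idl K} (hP : IsP S x P) (hx : Pt x)
    {l j : Fin 3} (hlj : l ≠ j) {v : Pr K} (hv : v ∉ S) (h1 : P l v ≠ 0) (h2 : P j v ≠ 0) :
    False := by
  have hoff := off_of_Pt hx
  have e1 := lamA_P hP l hv
  have e2 := lamA_P hP j hv
  have hlog := log_Nv_pos v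
  have g1 : Real.log (Nv v) ≤ lamA (fv v) (al l) (aff x) := by
    rw [lamA_comm, e1]
    have : (1 : ℝ) ≤ P l v := by exact_mod_cast Nat.one_le_iff_ne_zero.mpr h1
    nlinarith
  have g2 : Real.log (Nv v) ≤ lamA (fv v) (aff x) (al j) := by
    rw [e2]
    have : (1 : ℝ) ≤ P j v := by exact_mod_cast Nat.one_le_iff_ne_zero.mpr h2
    nlinarith
  have h3 := lamA_ultra (fv v) (fv_na v) (al_ne l) (aff_ne_zero x) (al_ne j)
    (wg_al_ne l j hlj) (wg_ne_comm (hoff l)) (hoff j) _ g1 g2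
  rw [lamA_al _ l j hlj] at h3
  linarith

/-- index of the nearest point -/
noncomputable def nearest (x : K) (v : Pl K) : Fin 3 :=
  Classical.choose (Finite.exists_max (fun l : Fin 3 => lm v l x))

lemma nearest_spec (x : K) (v : Pl K) (j : Fin 3) : lm v j x ≤ lm v (nearest x v) x :=
  Classical.choose_spec (Finite.exists_max (fun l : Fin 3 => lm v l x)) j

/-- the other points are far -/
lemma lm_other {x : K} (hx : Pt x) (v : Pl K) {l : Fin 3} (hl : l ≠ nearest x v) :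
    lm v l x ≤ loss v := by
  have hoff := off_of_Pt hx
  have h1 := lam_triangle v (p := al l) (q := aff x) (r := al (nearest x v)) (al_ne l)
    (aff_ne_zero x) (al_ne _) (wg_al_ne l _ hl) (wg_ne_comm (hoff l)) (hoff _)
    (lm v l x) (by rw [lam_comm, lam_lm]) (by rw [lam_lm]; exact nearest_spec x v l)
  rw [lam_eq, lamA_al _ l _ hl, mul_zero] at h1
  linarith

/-- rounded height -/
noncomputable def lev (x : K) (v : Pl K) : ℕ := ⌊lm v (nearest x v) x / Lu v⌋₊

open Classical in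
/-- blocks at the special places -/
noncomputable def blkS (S : Finset (Pr K)) (x : K) : Finset (Pl K × Fin 3 × ℕ) :=
  ((Spl S).filter (fun v => 1 ≤ lev x v)).image (fun v => (v, nearest x v, lev x v))

open Classical in
/-- blocks at the other places, form `l` -/
noncomputable def blkP (a : Idl K) (F : Set ℕ) (l : Fin 3) : Finset (Pl K × Fin 3 × ℕ) :=
  (ex a F).support.image (fun v => ((Sum.inr v : Pl K), l, ex a F v))

open Classical in
/-- all blocks of a point -/
noncomputable def blk (S : Finset (Pr K)) (I : Fin 3 → Set ℕ) (x : K) (P : Fin 3 → Idl K) :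
    Finset (Pl K × Fin 3 × ℕ) :=
  blkS S x ∪ Finset.univ.biUnion (fun l => blkP (P l) (I l) l)

lemma mem_ex_support {a : Idl K} {F : Set ℕ} {v : Pr K} :
    v ∈ (ex a F).support ↔ a v ≠ 0 ∧ a v ∈ F := by
  classical
  unfold ex
  rw [Finsupp.support_filter, Finset.mem_filter, Finsupp.mem_support_iff]

lemma ex_apply {a : Idl K} {F : Set ℕ} {v : Pr K} (h : v ∈ (ex a F).support) :
    ex a F v = a v := by
  classical
  rw [mem_ex_support] at h
  unfold ex
  exact Finsupp.filter_apply_pos _ _ h.2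

lemma mem_blkP {a : Idl K} {F : Set ℕ} {l : Fin 3} {b : Pl K × Fin 3 × ℕ} :
    b ∈ blkP a F l ↔ ∃ v, a v ≠ 0 ∧ a v ∈ F ∧ b = ((Sum.inr v : Pl K), l, a v) := by
  classical
  unfold blkP
  rw [Finset.mem_image]
  constructor
  · rintro ⟨v, hv, rfl⟩
    have h1 := mem_ex_support.mp hv
    exact ⟨v, h1.1, h1.2, by rw [ex_apply hv]⟩
  · rintro ⟨v, h1, h2, rfl⟩
    have hv : v ∈ (ex a F).support := mem_ex_support.mpr ⟨h1, h2⟩
    exact ⟨v, hv, by rw [ex_apply hv]⟩

lemma mem_blkS {S : Finset (Pr K)} {x : K} {b : Pl K × Fin 3 × ℕ} :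
    b ∈ blkS S x ↔ ∃ v ∈ Spl S, 1 ≤ lev x v ∧ b = (v, nearest x v, lev x v) := by
  classical
  unfold blkS
  rw [Finset.mem_image]
  constructor
  · rintro ⟨v, hv, rfl⟩
    rw [Finset.mem_filter] at hv
    exact ⟨v, hv.1, hv.2, rfl⟩
  · rintro ⟨v, h1, h2, rfl⟩
    exact ⟨v, Finset.mem_filter.mpr ⟨h1, h2⟩, rfl⟩

lemma mem_blk {S : Finset (Pr K)} {I : Fin 3 → Set ℕ} {x : K} {P : Fin 3 → Idl K}
    {b : Pl K × Fin 3 × ℕ} :
    b ∈ blk S I x P ↔ (∃ v ∈ Spl S, 1 ≤ lev x v ∧ b = (v, nearest x v, lev x v)) ∨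
      ∃ l v, P l v ≠ 0 ∧ P l v ∈ I l ∧ b = ((Sum.inr v : Pl K), l, P l v) := by
  classical
  unfold blk
  rw [Finset.mem_union, mem_blkS, Finset.mem_biUnion]
  constructor
  · rintro (h | ⟨l, _, h⟩)
    · exact Or.inl h
    · exact Or.inr ⟨l, mem_blkP.mp h⟩
  · rintro (h | ⟨l, h⟩)
    · exact Or.inl h
    · exact Or.inr ⟨l, Finset.mem_univ l, mem_blkP.mpr h⟩

lemma inr_mem_Spl {S : Finset (Pr K)} {v : Pr K} : (Sum.inr v : Pl K) ∈ Spl S ↔ v ∈ S := by
  unfold Spl
  rw [Finset.inr_mem_disjSum]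

lemma inl_mem_Spl {S : Finset (Pr K)} (w : InfinitePlace K) : (Sum.inl w : Pl K) ∈ Spl S := by
  unfold Spl
  rw [Finset.inl_mem_disjSum]
  exact Finset.mem_univ w

lemma notMem_of_ne {S : Finset (Pr K)} {x : K} {P : Fin 3 → Idl K} (hP : IsP S x P) {l : Fin 3}
    {v : Pr K} (h : P l v ≠ 0) : v ∉ S := fun hv => h (hP.off l v hv)

/-- blocks at ordinary places -/
lemma mem_blk_ord {S : Finset (Pr K)} {I : Fin 3 → Set ℕ} {x : K} {P : Fin 3 → Idl K}
    {v : Pr K} (hv : v ∉ S) {l : Fin 3} {m : ℕ} :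
    ((Sum.inr v : Pl K), l, m) ∈ blk S I x P ↔ P l v = m ∧ m ≠ 0 ∧ m ∈ I l := by
  rw [mem_blk]
  constructor
  · rintro (⟨u, hu, _, h⟩ | ⟨j, u, h1, h2, h⟩)
    · have h3 : (Sum.inr v : Pl K) = u := congrArg Prod.fst h
      rw [← h3, inr_mem_Spl] at hu
      exact absurd hu hv
    · have h3 : (Sum.inr v : Pl K) = Sum.inr u := congrArg Prod.fst h
      have h4 : v = u := Sum.inr_injective h3
      have h5 : l = j := congrArg (fun t => t.2.1) h
      have h6 : m = P j u := congrArg (fun t => t.2.2) h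
      subst h4 h5
      rw [h6]
      exact ⟨rfl, h1, h2⟩
  · rintro ⟨h1, h2, h3⟩
    right
    exact ⟨l, v, by rw [h1]; exact h2, by rw [h1]; exact h3, by rw [h1]⟩

lemma blk_inj {S : Finset (Pr K)} {I : Fin 3 → Set ℕ} {x : K} {P : Fin 3 → Idl K}
    (hP : IsP S x P) (hx : Pt x) :
    Set.InjOn (fun a : Pl K × Fin 3 × ℕ => a.1) (blk S I x P) := by
  intro a ha b hb hab
  rw [Finset.mem_coe, mem_blk] at ha hb
  simp only at hab
  rcases ha with ⟨u, hu, _, rfl⟩ | ⟨l, u, h1, h2, rfl⟩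
  · rcases hb with ⟨u', hu', _, rfl⟩ | ⟨l', u', h1', h2', rfl⟩
    · simp only at hab
      rw [hab]
    · simp only at hab
      rw [hab, inr_mem_Spl] at hu
      exact absurd hu (notMem_of_ne hP h1')
  · rcases hb with ⟨u', hu', _, rfl⟩ | ⟨l', u', h1', h2', rfl⟩
    · simp only at hab
      rw [← hab, inr_mem_Spl] at hu'
      exact absurd hu' (notMem_of_ne hP h1)
    · simp only at hab
      have h3 : u = u' := Sum.inr_injective hab
      subst h3
      by_cases hl : l = l'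
      · rw [hl]
      · exact (one_form hP hx hl (notMem_of_ne hP h1) h1 h1').elim

lemma blk_one_le {S : Finset (Pr K)} {I : Fin 3 → Set ℕ} {x : K} {P : Fin 3 → Idl K} :
    ∀ a ∈ blk S I x P, 1 ≤ a.2.2 := by
  intro a ha
  rw [mem_blk] at ha
  rcases ha with ⟨u, hu, h, rfl⟩ | ⟨l, u, h1, h2, rfl⟩
  · exact h
  · exact Nat.one_le_iff_ne_zero.mpr h1

lemma blk_le_lam {S : Finset (Pr K)} {I : Fin 3 → Set ℕ} {x : K} {P : Fin 3 → Idl K}
    (hP : IsP S x P) :
    ∀ a ∈ blk S I x P, wt a ≤ lam a.1 (aff x) (al a.2.1) := by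
  intro a ha
  rw [mem_blk] at ha
  rcases ha with ⟨u, hu, h, rfl⟩ | ⟨l, u, h1, h2, rfl⟩
  · simp only
    rw [lam_lm]
    exact floor_mul_le u _ h
  · have h3 := lamA_P hP l (notMem_of_ne hP h1)
    exact le_of_eq h3.symm

/-- same blocks give congruent exponents -/
lemma exp_congr {S : Finset (Pr K)} {I : Fin 3 → Set ℕ} {k : ℕ} {y z : K} {P P' : Fin 3 → Idl K}
    (h : blk S I y P = blk S I z P') {l : Fin 3} (hI : ∀ m, 1 ≤ m → m ∉ I l → k ∣ m)
    {v : Pr K} (hv : v ∉ S) : ∃ n : ℤ, (P l v : ℤ) - P' l v = k * n := by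
  by_cases h1 : P l v ≠ 0 ∧ P l v ∈ I l
  · have h2 : ((Sum.inr v : Pl K), l, P l v) ∈ blk S I y P := (mem_blk_ord hv).mpr ⟨rfl, h1⟩
    rw [h] at h2
    obtain ⟨h3, _⟩ := (mem_blk_ord hv).mp h2
    exact ⟨0, by rw [h3]; ring⟩
  · by_cases h1' : P' l v ≠ 0 ∧ P' l v ∈ I l
    · have h2 : ((Sum.inr v : Pl K), l, P' l v) ∈ blk S I z P' := (mem_blk_ord hv).mpr ⟨rfl, h1'⟩
      rw [← h] at h2
      obtain ⟨h3, _⟩ := (mem_blk_ord hv).mp h2
      exact ⟨0, by rw [h3]; ring⟩
    · have key : ∀ m : ℕ, ¬ (m ≠ 0 ∧ m ∈ I l) → k ∣ m := by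
        intro m hm
        by_cases h0 : m = 0
        · rw [h0]; exact dvd_zero k
        · exact hI m (Nat.one_le_iff_ne_zero.mpr h0) (fun h => hm ⟨h0, h⟩)
      obtain ⟨a, ha⟩ := key _ h1
      obtain ⟨b, hb⟩ := key _ h1'
      exact ⟨(a : ℤ) - b, by rw [ha, hb]; push_cast; ring⟩

lemma order_congr' {S : Finset (Pr K)} {I : Fin 3 → Set ℕ} {k : ℕ} {y z : K}
    {P P' : Fin 3 → Idl K} (hP : IsP S y P) (hP' : IsP S z P')
    (h : blk S I y P = blk S I z P') {p q : Fin 3} (hIp : ∀ m, 1 ≤ m → m ∉ I p → k ∣ m)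
    (hIq : ∀ m, 1 ≤ m → m ∉ I q → k ∣ m) {v : Pr K} (hv : v ∉ S) :
    ∃ n : ℤ, fv v ((wg (aff y) (al p) / wg (aff y) (al q)) /
      (wg (aff z) (al p) / wg (aff z) (al q))) = (Nv v) ^ ((k : ℤ) * n) := by
  have hN : (0 : ℝ) < Nv v := by linarith [two_le_Nv v]
  obtain ⟨n1, hn1⟩ := exp_congr h hIp hv
  obtain ⟨n2, hn2⟩ := exp_congr h hIq hv
  have hy : 0 < max (fv v y) 1 := lt_max_of_lt_right one_pos
  have hz : 0 < max (fv v z) 1 := lt_max_of_lt_right one_pos
  refine ⟨n2 - n1, ?_⟩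
  rw [map_div₀, map_div₀, map_div₀, f_wg_aff, f_wg_aff, f_wg_aff, f_wg_aff,
    hP.val p v hv, hP.val q v hv, hP'.val p v hv, hP'.val q v hv,
    mul_div_mul_left _ _ hy.ne', mul_div_mul_left _ _ hz.ne',
    ← zpow_sub₀ hN.ne', ← zpow_sub₀ hN.ne', ← zpow_sub₀ hN.ne']
  congr 1
  have h3 : (k : ℤ) * (n2 - n1) = k * n2 - k * n1 := by ring
  rw [h3, ← hn1, ← hn2]
  ring

/-- splitting a sum over the blocks -/
lemma sum_blk {S : Finset (Pr K)} {I : Fin 3 → Set ℕ} {x : K} {P : Fin 3 → Idl K}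
    (hP : IsP S x P) (φ : Pl K × Fin 3 × ℕ → ℝ) :
    ∑ a ∈ blk S I x P, φ a =
      ∑ v ∈ Spl S, (if 1 ≤ lev x v then φ (v, nearest x v, lev x v) else 0) +
      ∑ l : Fin 3, ∑ v ∈ (ex (P l) (I l)).support, φ ((Sum.inr v : Pl K), l, ex (P l) (I l) v) := by
  classical
  unfold blk
  rw [Finset.sum_union, Finset.sum_biUnion]
  · congr 1
    · unfold blkS
      rw [Finset.sum_image, Finset.sum_filter]
      intro a _ b _ hab
      exact congrArg Prod.fst hab
    · refine Finset.sum_congr rfl fun l _ => ?_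
      unfold blkP
      rw [Finset.sum_image]
      intro a _ b _ hab
      exact Sum.inr_injective (congrArg Prod.fst hab)
  · intro l _ j _ hlj
    rw [Function.onFun, Finset.disjoint_left]
    intro a ha hb
    obtain ⟨u, _, _, rfl⟩ := mem_blkP.mp ha
    obtain ⟨w, _, _, h⟩ := mem_blkP.mp hb
    exact hlj (congrArg (fun t => t.2.1) h)
  · rw [Finset.disjoint_left]
    intro a ha hb
    obtain ⟨u, hu, _, rfl⟩ := mem_blkS.mp ha
    obtain ⟨l, _, hl⟩ := Finset.mem_biUnion.mp hb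
    obtain ⟨w, h1, _, h⟩ := mem_blkP.mp hl
    have h3 : u = Sum.inr w := congrArg Prod.fst h
    rw [h3, inr_mem_Spl] at hu
    exact notMem_of_ne hP h1 hu

lemma sum_three (f : Fin 3 → ℝ) {p q r : Fin 3} (hpq : p ≠ q) (hqr : q ≠ r) (hpr : p ≠ r) :
    ∑ l, f l = f p + f q + f r := by
  rw [Fin.sum_univ_three]
  fin_cases p <;> fin_cases q <;> fin_cases r <;> simp_all <;> ring

/-- cost of the blocks -/
lemma blk_cost {S : Finset (Pr K)} {I : Fin 3 → Set ℕ} {x : K} {P : Fin 3 → Idl K}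
    (hP : IsP S x P) :
    ∑ a ∈ blk S I x P, cst (Spl S) a = ∑ l : Fin 3, rl (ex (P l) (I l)) := by
  rw [sum_blk hP]
  have h1 : ∑ v ∈ Spl S, (if 1 ≤ lev x v then cst (Spl S) (v, nearest x v, lev x v) else 0) = 0 := by
    refine Finset.sum_eq_zero fun v hv => ?_
    have h2 : cst (Spl S) (v, nearest x v, lev x v) = 0 := by
      unfold cst; rw [if_pos hv]
    rw [h2, ite_self]
  rw [h1, zero_add]
  refine Finset.sum_congr rfl fun l _ => ?_
  unfold rl
  refine Finset.sum_congr rfl fun v hv => ?_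
  have h3 : (Sum.inr v : Pl K) ∉ Spl S := by
    rw [inr_mem_Spl]
    exact notMem_of_ne hP (mem_ex_support.mp hv).1
  unfold cst
  rw [if_neg h3]
  rfl

/-- weight of a form -/
noncomputable def wf (k : ℕ) (p q : Fin 3) (l : Fin 3) : ℝ := if l = p ∨ l = q then 1 / k else 1

lemma wf_nonneg (k : ℕ) (p q l : Fin 3) : 0 ≤ wf k p q l := by
  unfold wf
  split_ifs <;> positivity

lemma wf_le_one {k : ℕ} (hk : 1 ≤ k) (p q l : Fin 3) : wf k p q l ≤ 1 := by
  unfold wf
  split_ifs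
  · rw [div_le_one (by exact_mod_cast (by omega : 0 < k))]
    exact_mod_cast hk
  · exact le_rfl

lemma gk_eq (k : ℕ) (p q : Fin 3) (a : Pl K × Fin 3 × ℕ) : gk k p q a = wf k p q a.2.1 * wt a := by
  unfold gk wf
  split_ifs
  · ring
  · ring

/-- gain of the blocks -/
lemma blk_gain {S : Finset (Pr K)} {I : Fin 3 → Set ℕ} {x : K} {P : Fin 3 → Idl K}
    (hP : IsP S x P) (hx : Pt x) {k : ℕ} (hk : 1 ≤ k) {p q r : Fin 3}
    (hpq : p ≠ q) (hqr : q ≠ r) (hpr : p ≠ r) (g : Fin 3 → ℝ)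
    (hg : ∀ l, g l ≤ len (ex (P l) (I l)) + ∑ v ∈ Spl S, lm v l x) :
    (g p + g q) / k + g r - ∑ v ∈ Spl S, (Lu v + 3 * loss v) ≤
      ∑ a ∈ blk S I x P, gk k p q a := by
  have hw0 := wf_nonneg k p q
  have hw1 := wf_le_one hk p q
  rw [sum_blk hP]
  have h1 : ∑ l : Fin 3, ∑ v ∈ (ex (P l) (I l)).support,
      gk k p q ((Sum.inr v : Pl K), l, ex (P l) (I l) v) =
      ∑ l : Fin 3, wf k p q l * len (ex (P l) (I l)) := by
    refine Finset.sum_congr rfl fun l _ => ?_
    unfold len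
    rw [Finset.mul_sum]
    refine Finset.sum_congr rfl fun v _ => ?_
    rw [gk_eq]
    rfl
  have h2 : ∀ v ∈ Spl S, ∑ l : Fin 3, wf k p q l * lm v l x - (Lu v + 3 * loss v) ≤
      (if 1 ≤ lev x v then gk k p q (v, nearest x v, lev x v) else 0) := by
    intro v _
    have h3 : (if 1 ≤ lev x v then gk k p q (v, nearest x v, lev x v) else 0) =
        wf k p q (nearest x v) * ((lev x v : ℝ) * Lu v) := by
      split_ifs with h
      · rw [gk_eq]; rfl
      · have h0 : lev x v = 0 := by omega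
        rw [h0, Nat.cast_zero, zero_mul, mul_zero]
    rw [h3]
    have h4 := le_floor_mul v (lm v (nearest x v) x)
    have h4' : lm v (nearest x v) x ≤ (lev x v : ℝ) * Lu v + Lu v := h4
    have hL := loss_nonneg v
    have hLu := Lu_pos v
    have h5 : wf k p q (nearest x v) * lm v (nearest x v) x ≤
        wf k p q (nearest x v) * ((lev x v : ℝ) * Lu v) + Lu v := by
      have h6 := mul_le_mul_of_nonneg_left h4' (hw0 (nearest x v))
      have h7 := mul_le_mul_of_nonneg_right (hw1 (nearest x v)) hLu.le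
      rw [mul_add] at h6
      linarith
    have h8 : ∑ l : Fin 3, wf k p q l * lm v l x ≤
        ∑ l : Fin 3, ((if l = nearest x v then
          wf k p q (nearest x v) * ((lev x v : ℝ) * Lu v) + Lu v else 0) + loss v) := by
      refine Finset.sum_le_sum fun l _ => ?_
      split_ifs with hl
      · rw [hl]; linarith
      · have h9 := lm_other hx v hl
        have h10 := mul_le_mul_of_nonneg_left h9 (hw0 l)
        have h11 := mul_le_mul_of_nonneg_right (hw1 l) hL
        linarith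
    rw [Finset.sum_add_distrib, Finset.sum_ite_eq' , if_pos (Finset.mem_univ _),
      Finset.sum_const, Finset.card_univ, Fintype.card_fin, nsmul_eq_mul] at h8
    push_cast at h8
    linarith
  have h12 := Finset.sum_le_sum h2
  rw [Finset.sum_sub_distrib, Finset.sum_comm] at h12
  have h13 : (g p + g q) / k + g r = ∑ l : Fin 3, wf k p q l * g l := by
    rw [sum_three _ hpq hqr hpr]
    have e1 : wf k p q p = 1 / k := by unfold wf; rw [if_pos (Or.inl rfl)]
    have e2 : wf k p q q = 1 / k := by unfold wf; rw [if_pos (Or.inr rfl)]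
    have e3 : wf k p q r = 1 := by
      unfold wf; rw [if_neg]
      rintro (h | h)
      · exact hpr h.symm
      · exact hqr h.symm
    rw [e1, e2, e3]
    ring
  have h14 : ∑ l : Fin 3, wf k p q l * g l ≤
      ∑ l : Fin 3, (wf k p q l * len (ex (P l) (I l)) + ∑ v ∈ Spl S, wf k p q l * lm v l x) := by
    refine Finset.sum_le_sum fun l _ => ?_
    rw [← Finset.mul_sum, ← mul_add]
    exact mul_le_mul_of_nonneg_left (hg l) (hw0 l)
  rw [Finset.sum_add_distrib] at h14
  rw [h1, h13]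
  linarith

/-- total weight of the blocks -/
lemma blk_weight {S : Finset (Pr K)} {I : Fin 3 → Set ℕ} {x : K} {P : Fin 3 → Idl K}
    (hP : IsP S x P) (hx : Pt x) :
    ∑ a ∈ blk S I x P, wt a ≤ 3 * hr (aff x) + (∑ l : Fin 3, hr (al l : K × K) + 3 * lossK K) := by
  classical
  have hoff := off_of_Pt hx
  rw [← Finset.sum_fiberwise_of_maps_to (s := blk S I x P) (t := (Finset.univ : Finset (Fin 3)))
    (g := fun a => a.2.1) (fun a _ => Finset.mem_univ a.2.1) wt]
  have h1 : ∀ l : Fin 3, ∑ a ∈ blk S I x P with a.2.1 = l, wt a ≤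
      hr (aff x) + hr (al l : K × K) + lossK K := by
    intro l
    have h2 : ∑ a ∈ blk S I x P with a.2.1 = l, wt a ≤
        ∑ a ∈ blk S I x P with a.2.1 = l, lam a.1 (aff x) (al l) := by
      refine Finset.sum_le_sum fun a ha => ?_
      rw [Finset.mem_filter] at ha
      have h3 := blk_le_lam hP a ha.1
      rwa [ha.2] at h3
    have h4 : ∑ a ∈ blk S I x P with a.2.1 = l, lam a.1 (aff x) (al l) =
        ∑ v ∈ ((blk S I x P).filter (fun a => a.2.1 = l)).image (fun a => a.1),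
          lam v (aff x) (al l) := by
      rw [Finset.sum_image]
      intro a ha b hb hab
      exact blk_inj hP hx (Finset.mem_coe.mpr (Finset.mem_filter.mp (Finset.mem_coe.mp ha)).1)
        (Finset.mem_coe.mpr (Finset.mem_filter.mp (Finset.mem_coe.mp hb)).1) hab
    rw [h4] at h2
    exact h2.trans (sum_lam_le (aff_ne_zero x) (al_ne l) (hoff l) _)
  refine (Finset.sum_le_sum fun l _ => h1 l).trans (le_of_eq ?_)
  rw [Finset.sum_add_distrib, Finset.sum_add_distrib, Finset.sum_const, Finset.sum_const,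
    Finset.card_univ, Fintype.card_fin, nsmul_eq_mul, nsmul_eq_mul]
  push_cast
  ring

/-- the gap principle with root extraction -/
theorem mb (S : Finset (Pr K)) : StmtMB S := by
  classical
  intro k ε hk hS hε
  have hk0 : (0 : ℝ) < k := by exact_mod_cast (by omega : 0 < k)
  have hclassC : ∀ i1 i2 : Fin 3, ∃ C : ℝ, 0 ≤ C ∧ (i1 ≠ i2 →
      ∀ (A : Finset (Pl K × Fin 3 × ℕ)),
      Set.InjOn (fun a : Pl K × Fin 3 × ℕ => a.1) A → (∀ a ∈ A, 1 ≤ a.2.2) →
      ∀ (F : Finset K) (T : ℝ),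
      (∀ x ∈ F, Off (al : Fin 3 → K × K) x) → (∀ x ∈ F, hr (aff x) ≤ T) →
      (∀ x ∈ F, ∀ a ∈ A, wt a ≤ lam a.1 (aff x) (al a.2.1)) →
      (∀ x ∈ F, ∀ y ∈ F, ∀ v : HeightOneSpectrum (𝓞 K), (Sum.inr v : Pl K) ∉ Spl S →
        ∃ n : ℤ, fv v ((wg (aff x) (al i1) / wg (aff x) (al i2)) /
          (wg (aff y) (al i1) / wg (aff y) (al i2))) = (Nv v) ^ ((k : ℤ) * n)) →
      (F.card : ℝ) ≤ C * (k : ℝ) ^ A.card *
        (1 + Real.exp (2 * T / k - ∑ a ∈ A, gk k i1 i2 a))) := by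
    intro i1 i2
    by_cases h : i1 ≠ i2
    · obtain ⟨C, hC, hcl⟩ := class_bound_root (K := K) al al_ne wg_al_ne i1 i2 h
        (by omega : 0 < k) (Spl S) inl_mem_Spl
        (fun v hv => ordin hk hS v (fun h' => hv (inr_mem_Spl.mpr h')))
      exact ⟨C, hC, fun _ => hcl⟩
    · exact ⟨0, le_rfl, fun h1 => absurd h1 h⟩
  choose Cc hCc0 hCc using hclassC
  set C3 : ℝ := ∑ i1 : Fin 3, ∑ i2 : Fin 3, Cc i1 i2 with hC3
  have hC3le : ∀ i1 i2, Cc i1 i2 ≤ C3 := by
    intro i1 i2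
    have e1 : Cc i1 i2 ≤ ∑ i2 : Fin 3, Cc i1 i2 :=
      Finset.single_le_sum (f := fun i2 => Cc i1 i2) (fun i _ => hCc0 i1 i)
        (Finset.mem_univ i2)
    have e2 : ∑ i2 : Fin 3, Cc i1 i2 ≤ C3 :=
      Finset.single_le_sum (f := fun i1 => ∑ i2 : Fin 3, Cc i1 i2)
        (fun i _ => Finset.sum_nonneg fun j _ => hCc0 i j) (Finset.mem_univ i1)
    linarith
  have hC30 : 0 ≤ C3 := Finset.sum_nonneg fun i _ => Finset.sum_nonneg fun j _ => hCc0 i j
  set η : ℝ := ε / 3 with hη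
  have hηpos : 0 < η := by positivity
  obtain ⟨F0, hF0⟩ := weights2_bounded (Spl S) 3 hηpos
  set Cs : ℝ := ∑ v ∈ Spl S, (Lu v + 3 * loss v) with hCs
  have hCs0 : 0 ≤ Cs := Finset.sum_nonneg fun v _ => by
    have := Lu_pos v
    have := loss_nonneg v
    positivity
  set C' : ℝ := ∑ l : Fin 3, hr (al l : K × K) + 3 * lossK K with hC'
  refine ⟨2 * C3 * Real.exp (Cs + η * C' + k / 4 * F0) + 1, by positivity, ?_⟩
  intro X E P p q r I c g hX hE hpq hqr hpr hIp hIq hc hg
  have hmain := count_bound2 E (fun x => blk S I x (P x)) wt (cst (Spl S)) (gk k p q)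
    (fun a => k / 4 * fwt2 (Spl S) η a)
    (fun a => mul_nonneg (by positivity) (fwt2_nonneg (Spl S) η a)) (k / 4 * F0)
    (fun s => by
      rw [← Finset.mul_sum]
      exact mul_le_mul_of_nonneg_left (hF0 s) (by positivity)) η k hηpos hk0.le
    (fun x _ a ha => by
      have h1 := blk_one_le a ha
      unfold fwt2
      rw [if_pos h1]
      apply le_of_eq
      ring)
    (2 * X / k)
    (c p + c q + c r + max 0 (2 * X / k - (g p + g q) / k - g r) + Cs)
    (3 * X + C') C3 hC30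
    (fun x hx => by
      obtain ⟨hpt, hP, hht⟩ := hE x hx
      have h1 := blk_gain hP hpt hk hpq hqr hpr g (hg x hx)
      rw [← hCs] at h1
      rw [blk_cost hP, sum_three _ hpq hqr hpr]
      have h2 : max 0 (2 * X / k - ∑ a ∈ blk S I x (P x), gk k p q a) ≤
          max 0 (2 * X / k - (g p + g q) / k - g r) + Cs := by
        refine max_le ?_ ?_
        · have := le_max_left 0 (2 * X / k - (g p + g q) / k - g r)
          linarith
        · have := le_max_right 0 (2 * X / k - (g p + g q) / k - g r)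
          linarith
      have h3 := hc x hx p
      have h4 := hc x hx q
      have h5 := hc x hx r
      linarith)
    (fun x hx => by
      obtain ⟨hpt, hP, hht⟩ := hE x hx
      have h1 := blk_weight (I := I) hP hpt
      rw [← hC'] at h1
      have h2 : hr (aff x) ≤ X := hht
      linarith)
    (fun x hx => by
      obtain ⟨hpt, hP, hht⟩ := hE x hx
      have hcl := hCc p q hpq (blk S I x (P x)) (blk_inj hP hpt) blk_one_le
        (E.filter (fun y => blk S I y (P y) = blk S I x (P x))) X ?_ ?_ ?_ ?_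
      · refine hcl.trans ?_
        have h0 : 0 ≤ 1 + Real.exp (2 * X / k - ∑ a ∈ blk S I x (P x), gk k p q a) := by
          positivity
        refine mul_le_mul_of_nonneg_right ?_ h0
        exact mul_le_mul_of_nonneg_right (hC3le p q) (by positivity)
      · intro y hy
        exact off_of_Pt (hE y (Finset.mem_filter.mp hy).1).1
      · intro y hy
        exact (hE y (Finset.mem_filter.mp hy).1).2.2
      · intro y hy a ha
        obtain ⟨hy1, hy2⟩ := Finset.mem_filter.mp hy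
        rw [← hy2] at ha
        exact blk_le_lam (hE y hy1).2.1 a ha
      · intro y hy z hz v hv
        obtain ⟨hy1, hy2⟩ := Finset.mem_filter.mp hy
        obtain ⟨hz1, hz2⟩ := Finset.mem_filter.mp hz
        exact order_congr' (hE y hy1).2.1 (hE z hz1).2.1 (hy2.trans hz2.symm) hIp hIq
          (fun h => hv (inr_mem_Spl.mpr h)))
  refine hmain.trans ?_
  have hexp : c p + c q + c r + max 0 (2 * X / k - (g p + g q) / k - g r) + Cs +
      η * (3 * X + C') + k / 4 * F0 =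
      (Cs + η * C' + k / 4 * F0) + (ε * X + (c p + c q + c r) +
        max 0 (2 * X / k - (g p + g q) / k - g r)) := by
    rw [hη]; ring
  rw [hexp, Real.exp_add, ← mul_assoc]
  refine mul_le_mul_of_nonneg_right ?_ (Real.exp_pos _).le
  linarith

end Pool.Agent.W108.AK
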