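import Pool.Agent.W223.AK.Point

set_option autoImplicit false
set_option linter.unusedSectionVars false

/-!
Classes of exponents, and the cells.
-/

namespace Pool.Agent.W108.AK

open NumberField IsDedekindDomain Finset Pool.Agent.H691R3 Pool.Agent.W223.AK

section Parts

variable {K : Type} [Field K] [NumberField K]

open Classical in
lemma rl_ex_sum (a : Idl K) (F : Set ℕ) :
    rl (ex a F) = ∑ v ∈ a.support, if a v ∈ F then Real.log (Nv v) else 0 := by
  have h : (ex a F).support = a.support.filter (fun v => a v ∈ F) := by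
    ext v
    rw [ex_support, Finset.mem_filter, Finsupp.mem_support_iff]
  unfold rl
  rw [h, Finset.sum_filter]

open Classical in
lemma len_ex_sum (a : Idl K) (F : Set ℕ) :
    len (ex a F) = ∑ v ∈ a.support, if a v ∈ F then (a v : ℝ) * Real.log (Nv v) else 0 := by
  have h : (ex a F).support = a.support.filter (fun v => a v ∈ F) := by
    ext v
    rw [ex_support, Finset.mem_filter, Finsupp.mem_support_iff]
  unfold len
  rw [h, Finset.sum_filter]
  refine Finset.sum_congr rfl fun v _ => ?_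
  split_ifs with h1
  · rw [Pool.Agent.W223.AK.ex_apply, if_pos h1]
  · rfl

open Classical in
lemma ite_union {ι : Type*} (J : Finset ι) (F : ι → Set ℕ)
    (hF : ∀ i ∈ J, ∀ j ∈ J, i ≠ j → Disjoint (F i) (F j)) (U : Set ℕ)
    (hU : ∀ m, m ∈ U ↔ ∃ i ∈ J, m ∈ F i) (m : ℕ) (c : ℝ) :
    (if m ∈ U then c else 0) = ∑ i ∈ J, if m ∈ F i then c else 0 := by
  split_ifs with h
  · obtain ⟨i, hi, hm⟩ := (hU m).mp h
    rw [Finset.sum_eq_single_of_mem i hi]
    · rw [if_pos hm]
    · intro j hj hji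
      rw [if_neg]
      intro hm'
      exact Set.disjoint_left.mp (hF j hj i hi hji) hm' hm
  · symm
    refine Finset.sum_eq_zero fun i hi => ?_
    rw [if_neg]
    intro hm
    exact h ((hU m).mpr ⟨i, hi, hm⟩)

lemma rl_union {ι : Type*} (a : Idl K) (J : Finset ι) (F : ι → Set ℕ)
    (hF : ∀ i ∈ J, ∀ j ∈ J, i ≠ j → Disjoint (F i) (F j)) :
    rl (ex a {m | ∃ i ∈ J, m ∈ F i}) = ∑ i ∈ J, rl (ex a (F i)) := by
  classical
  rw [rl_ex_sum]
  simp only [rl_ex_sum]
  rw [Finset.sum_comm]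
  exact Finset.sum_congr rfl fun v _ => ite_union J F hF _ (fun _ => Iff.rfl) _ _

lemma len_union {ι : Type*} (a : Idl K) (J : Finset ι) (F : ι → Set ℕ)
    (hF : ∀ i ∈ J, ∀ j ∈ J, i ≠ j → Disjoint (F i) (F j)) :
    len (ex a {m | ∃ i ∈ J, m ∈ F i}) = ∑ i ∈ J, len (ex a (F i)) := by
  classical
  rw [len_ex_sum]
  simp only [len_ex_sum]
  rw [Finset.sum_comm]
  exact Finset.sum_congr rfl fun v _ => ite_union J F hF _ (fun _ => Iff.rfl) _ _

lemma ex_all (a : Idl K) (F : Set ℕ) (hF : ∀ m, 1 ≤ m → m ∈ F) : ex a F = a := by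
  classical
  ext v
  rw [Pool.Agent.W223.AK.ex_apply]
  split_ifs with h
  · rfl
  · by_contra h1
    exact h (hF _ (by omega))

lemma len_single (a : Idl K) (m : ℕ) : len (ex a {m}) = m * rl (ex a {m}) := by
  classical
  rw [len_ex_sum, rl_ex_sum, Finset.mul_sum]
  refine Finset.sum_congr rfl fun v _ => ?_
  split_ifs with h
  · rw [Set.mem_singleton_iff] at h
    rw [h]
  · rw [mul_zero]

lemma le_len_of (a : Idl K) (F : Set ℕ) (N : ℕ) (hF : ∀ m ∈ F, N ≤ m) :
    N * rl (ex a F) ≤ len (ex a F) := by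
  classical
  rw [len_ex_sum, rl_ex_sum, Finset.mul_sum]
  refine Finset.sum_le_sum fun v _ => ?_
  split_ifs with h
  · have h1 : (N : ℝ) ≤ a v := by exact_mod_cast hF _ h
    exact mul_le_mul_of_nonneg_right h1 (log_Nv_pos v).le
  · rw [mul_zero]

lemma len_ex_le (a : Idl K) (F : Set ℕ) : len (ex a F) ≤ len a := len_mono (ex_le a F)

lemma rl_ex_le (a : Idl K) (F : Set ℕ) : rl (ex a F) ≤ len a :=
  (rl_le_len _).trans (len_ex_le a F)

/-- the classes of exponents -/
def cls (i : Fin 5) : Set ℕ := {m | 1 ≤ m ∧ min (m - 1) 4 = (i : ℕ)}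

lemma cls_lt {i : Fin 5} (hi : (i : ℕ) < 4) : cls i = {(i : ℕ) + 1} := by
  ext m
  unfold cls
  rw [Set.mem_ofPred_eq, Set.mem_singleton_iff]
  omega

lemma cls_four : cls 4 = {m | 5 ≤ m} := by
  ext m
  unfold cls
  rw [Set.mem_ofPred_eq, Set.mem_ofPred_eq]
  simp
  omega

lemma cls_disj (i j : Fin 5) (h : i ≠ j) : Disjoint (cls i) (cls j) := by
  rw [Set.disjoint_left]
  intro m h1 h2
  apply h
  ext
  rw [← h1.2, h2.2]

/-- the union of the classes in `I` -/
def Un (I : Finset (Fin 5)) : Set ℕ := {m | ∃ i ∈ I, m ∈ cls i}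

lemma rl_Un (a : Idl K) (I : Finset (Fin 5)) : rl (ex a (Un I)) = ∑ i ∈ I, rl (ex a (cls i)) :=
  rl_union a I cls fun i _ j _ h => cls_disj i j h

lemma len_Un (a : Idl K) (I : Finset (Fin 5)) : len (ex a (Un I)) = ∑ i ∈ I, len (ex a (cls i)) :=
  len_union a I cls fun i _ j _ h => cls_disj i j h

lemma mem_Un_univ {m : ℕ} (h : 1 ≤ m) : m ∈ Un univ := by
  refine ⟨⟨min (m - 1) 4, by omega⟩, Finset.mem_univ _, h, rfl⟩

lemma ex_univ (a : Idl K) : ex a (Un univ) = a := ex_all a _ fun _ h => mem_Un_univ h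

lemma rl_cls_sum (a : Idl K) : rl a = ∑ i : Fin 5, rl (ex a (cls i)) := by
  rw [← rl_Un, ex_univ]

lemma len_cls_sum (a : Idl K) : len a = ∑ i : Fin 5, len (ex a (cls i)) := by
  rw [← len_Un, ex_univ]

/-- exact classes up to `n` and the tail -/
def cn (n : ℕ) (i : Option (Fin n)) : Set ℕ := i.elim {m | n < m} fun j => {(j : ℕ) + 1}

lemma rl_cn_sum (n : ℕ) (a : Idl K) :
    rl a = rl (ex a {m | n < m}) + ∑ i : Fin n, rl (ex a {(i : ℕ) + 1}) := by
  classical
  have h1 : ∀ i j : Option (Fin n), i ≠ j → Disjoint (cn n i) (cn n j) := by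
    intro i j hij
    rw [Set.disjoint_left]
    intro m hi hj
    rcases i with _ | i
    · rcases j with _ | j
      · exact hij rfl
      · simp only [cn, Option.elim, Set.mem_ofPred_eq, Set.mem_singleton_iff] at hi hj
        omega
    · rcases j with _ | j
      · simp only [cn, Option.elim, Set.mem_ofPred_eq, Set.mem_singleton_iff] at hi hj
        omega
      · simp only [cn, Option.elim, Set.mem_singleton_iff] at hi hj
        apply hij
        congr 1
        ext
        omega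
  have h2 := rl_union a (univ : Finset (Option (Fin n))) (cn n) fun i _ j _ h => h1 i j h
  rw [Fintype.sum_option] at h2
  have h3 : ex a {m | ∃ i ∈ (univ : Finset (Option (Fin n))), m ∈ cn n i} = a := by
    refine ex_all a _ fun m hm => ?_
    by_cases h : n < m
    · exact ⟨none, Finset.mem_univ _, h⟩
    · refine ⟨some ⟨m - 1, by omega⟩, Finset.mem_univ _, ?_⟩
      simp only [cn, Option.elim, Set.mem_singleton_iff]
      omega
  rw [h3] at h2
  exact h2

lemma rl_compl (a : Idl K) (i : Fin 5) (hi : (i : ℕ) < 4) :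
    rl (ex a {m | m ≠ (i : ℕ) + 1}) = rl (ex a (Un {i}ᶜ)) := by
  congr 1
  classical
  ext v
  rw [Pool.Agent.W223.AK.ex_apply, Pool.Agent.W223.AK.ex_apply]
  by_cases h0 : a v = 0
  · simp [h0]
  · have h1 : a v ∈ {m | m ≠ (i : ℕ) + 1} ↔ a v ∈ Un {i}ᶜ := by
      unfold Un
      rw [Set.mem_ofPred_eq, Set.mem_ofPred_eq]
      constructor
      · intro h
        refine ⟨⟨min (a v - 1) 4, by omega⟩, ?_, by omega, rfl⟩
        rw [Finset.mem_compl, Finset.mem_singleton]
        intro h2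
        have h3 := congrArg Fin.val h2
        simp only at h3
        omega
      · rintro ⟨j, hj, hj1, hj2⟩ h
        rw [Finset.mem_compl, Finset.mem_singleton] at hj
        apply hj
        ext
        omega
    simp only [h1]

end Parts

section Count

/-- the number of cells -/
lemma cells (ι : Type) [Fintype ι] (A δ : ℝ) (hA : 0 ≤ A) (hδ : 0 < δ) :
    ∃ D : ℝ, 0 < D ∧ ∀ (α : Type) (f : ι → α → ℝ) (X : ℝ) (F : Finset α), 0 ≤ X →
      (∀ x ∈ F, ∀ j, -A ≤ f j x ∧ f j x ≤ X + A) → ∀ n : ℝ, 0 ≤ n →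
      (∀ G ⊆ F, (∀ j, ∀ x ∈ G, ∀ y ∈ G, |f j x - f j y| ≤ 1) → (G.card : ℝ) ≤ n) →
      (F.card : ℝ) ≤ D * Real.exp (δ * X) * n := by
  classical
  set m : ℕ := Fintype.card ι with hm
  set c : ℝ := δ / (m + 1) with hc
  have hc0 : 0 < c := by positivity
  refine ⟨(1 / c) ^ m * Real.exp (δ * (2 * A + 1)), by positivity, ?_⟩
  intro α f X F hX hf n hn hG
  set N : ℕ := ⌊X + 2 * A⌋₊ + 1 with hN
  have hN1 : (N : ℝ) ≤ X + 2 * A + 1 := by
    rw [hN]; push_cast
    have := Nat.floor_le (show 0 ≤ X + 2 * A by positivity)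
    linarith
  have hNpos : 0 < N := by omega
  set col : ι → α → Fin N := fun j x => ⟨⌊f j x + A⌋₊ % N, Nat.mod_lt _ hNpos⟩ with hcol
  have h1 := multi_coloring (Finset.univ : Finset ι) (fun _ => N) col n F ?_
  · refine h1.trans (mul_le_mul_of_nonneg_right ?_ hn)
    rw [Finset.prod_const, Finset.card_univ, ← hm]
    have h2 : (N : ℝ) ≤ 1 / c * Real.exp (c * (X + 2 * A + 1)) := by
      have h3 := Real.add_one_le_exp (c * (X + 2 * A + 1))
      rw [one_div, inv_mul_eq_div, le_div_iff₀ hc0]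
      have h4 := mul_le_mul_of_nonneg_right hN1 hc0.le
      nlinarith
    calc (N : ℝ) ^ m ≤ (1 / c * Real.exp (c * (X + 2 * A + 1))) ^ m :=
          pow_le_pow_left₀ (Nat.cast_nonneg _) h2 m
      _ = (1 / c) ^ m * Real.exp (m * (c * (X + 2 * A + 1))) := by
          rw [mul_pow, ← Real.exp_nat_mul]
      _ ≤ (1 / c) ^ m * (Real.exp (δ * (2 * A + 1)) * Real.exp (δ * X)) := by
          refine mul_le_mul_of_nonneg_left ?_ (by positivity)
          rw [← Real.exp_add]
          refine Real.exp_le_exp.mpr ?_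
          have h5 : (m : ℝ) * c ≤ δ := by
            rw [hc, mul_div_assoc', div_le_iff₀ (by positivity)]
            nlinarith
          have h6 : 0 ≤ X + 2 * A + 1 := by positivity
          have h7 := mul_le_mul_of_nonneg_right h5 h6
          nlinarith
      _ = _ := by ring
  · intro G hGF hGc
    refine hG G hGF ?_
    intro j x hx y hy
    have h2 := hGc j (Finset.mem_univ j) x hx y hy
    rw [hcol] at h2
    simp only [Fin.mk.injEq] at h2
    have h3 : ∀ z ∈ G, ⌊f j z + A⌋₊ < N := by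
      intro z hz
      have h4 := (hf z (hGF hz) j).2
      rw [hN]
      exact Nat.lt_succ_of_le (Nat.floor_le_floor (by linarith))
    rw [Nat.mod_eq_of_lt (h3 x hx), Nat.mod_eq_of_lt (h3 y hy)] at h2
    have hx0 : 0 ≤ f j x + A := by
      have := (hf x (hGF hx) j).1
      linarith
    have hy0 : 0 ≤ f j y + A := by
      have := (hf y (hGF hy) j).1
      linarith
    have e1 := Nat.floor_le hx0
    have e2 := Nat.lt_floor_add_one (f j x + A)
    have e3 := Nat.floor_le hy0
    have e4 := Nat.lt_floor_add_one (f j y + A)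
    rw [h2] at e1 e2
    rw [abs_le]
    constructor <;> linarith

end Count

end Pool.Agent.W108.AK
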